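import Pool.Agent.J4.H46.LG.Bump

/-!
# Admissible functions for the linear programming bound for Gaussian energy
-/

set_option autoImplicit false

open MeasureTheory Filter Topology
open scoped FourierTransform RealInnerProductSpace ContDiff Convolution

namespace Pool.Agent.J4.H46.LG

variable {d : ℕ} {α : ℝ}

/-- The admissible functions of the linear programming bound for the potential `exp(-α r²)`. -/
structure Admissible (α : ℝ) (f : E d → ℝ) : Prop where
  cont : Continuous f
  dec : Dec (fun x => (f x : ℂ))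
  dec_ft : Dec (ft f)
  le : ∀ x, x ≠ 0 → f x ≤ Real.exp (-α * ‖x‖ ^ 2)
  im : ∀ y, (ft f y).im = 0
  re : ∀ y, 0 ≤ (ft f y).re

/-- `f̂(0) - f(0)` -/
noncomputable def val (f : E d → ℝ) : ℝ := (ft f 0).re - f 0

/-- The optimal linear programming bound `B_d(α)`. -/
noncomputable def LPB (d : ℕ) (α : ℝ) : ℝ :=
  sSup {v : ℝ | ∃ f : E d → ℝ, Admissible α f ∧ v = val f}

/-- the potential -/
noncomputable def ga (α : ℝ) (x : E d) : ℝ := Real.exp (-α * ‖x‖ ^ 2)

lemma ft_add {f g : E d → ℝ} (hf : Integrable f) (hg : Integrable g) (t : ℝ) (y : E d) :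
    ft (fun x => f x + t * g x) y = ft f y + t * ft g y := by
  unfold ft
  have hf' : Integrable (fun x => (f x : ℂ)) := hf.ofReal
  have hg' : Integrable (fun x => (g x : ℂ)) := hg.ofReal
  have h1 := (Real.fourierIntegral_convergent_iff y).2 hf'
  have h2 := (Real.fourierIntegral_convergent_iff y).2 hg'
  rw [Real.fourier_eq, Real.fourier_eq, Real.fourier_eq, ← integral_const_mul,
    ← integral_add h1 (h2.const_mul _)]
  refine integral_congr_ae (Eventually.of_forall fun x => ?_)
  simp only [Circle.smul_def, smul_eq_mul]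
  push_cast
  ring

lemma Admissible.int {f : E d → ℝ} (hf : Admissible α f) : Integrable f := by
  have h := hf.dec.integrable (Complex.continuous_ofReal.comp hf.cont)
  exact h.re

lemma Admissible.int_ft {f : E d → ℝ} (hf : Admissible α f) : Integrable (ft f) :=
  hf.dec_ft.integrable (ft_continuous hf.int)

/-- positive definiteness -/
lemma Admissible.abs_le {f : E d → ℝ} (hf : Admissible α f) (x : E d) : |f x| ≤ f 0 := by
  have h1 : ∀ x, (f x : ℂ) = ∫ y, Complex.exp ((↑(-2 * Real.pi * ⟪y, -x⟫) * Complex.I)) • ft f y := by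
    intro x
    rw [inv hf.cont hf.int hf.int_ft x]
    exact Real.fourier_eq' _ _
  have h2 : ∀ y, ft f y = ((ft f y).re : ℂ) := fun y => Complex.ext rfl (by simp [hf.im y])
  have h3 : (f 0 : ℂ) = ((∫ y, (ft f y).re : ℝ) : ℂ) := by
    rw [h1 0, ← integral_complex_ofReal]
    refine integral_congr_ae (Eventually.of_forall fun y => ?_)
    simp only [neg_zero, inner_zero_right, mul_zero, Complex.ofReal_zero, zero_mul,
      Complex.exp_zero, one_smul]
    exact h2 y
  have h4 : f 0 = ∫ y, (ft f y).re := by exact_mod_cast h3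
  rw [h4]
  have h5 : |f x| = ‖(f x : ℂ)‖ := by rw [Complex.norm_real, Real.norm_eq_abs]
  rw [h5, h1 x]
  refine (norm_integral_le_integral_norm _).trans (le_of_eq ?_)
  refine integral_congr_ae (Eventually.of_forall fun y => ?_)
  show ‖_ • ft f y‖ = _
  rw [norm_smul, Complex.norm_exp_ofReal_mul_I, one_mul]
  conv_lhs => rw [h2 y]
  rw [Complex.norm_real, Real.norm_of_nonneg (hf.re y)]

lemma Admissible.zero_nonneg {f : E d → ℝ} (hf : Admissible α f) : 0 ≤ f 0 :=
  (abs_nonneg _).trans (hf.abs_le 0)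

lemma Admissible.zero_le {f : E d → ℝ} (hd : 1 ≤ d) (hf : Admissible α f) : f 0 ≤ 1 := by
  set e : E d := EuclideanSpace.single (⟨0, hd⟩ : Fin d) (1 : ℝ) with he
  have hen : ‖e‖ = 1 := by rw [he]; simp
  have h1 : Tendsto (fun t : ℝ => f (t • e)) (𝓝[>] 0) (𝓝 (f 0)) := by
    have : Continuous fun t : ℝ => f (t • e) := hf.cont.comp (continuous_id.smul continuous_const)
    have h := this.tendsto 0
    simp only [zero_smul] at h
    exact h.mono_left nhdsWithin_le_nhds
  have h2 : Tendsto (fun t : ℝ => Real.exp (-α * ‖t • e‖ ^ 2)) (𝓝[>] 0) (𝓝 1) := by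
    have : Continuous fun t : ℝ => Real.exp (-α * ‖t • e‖ ^ 2) := by fun_prop
    have h := this.tendsto 0
    simp only [zero_smul, norm_zero, ne_eq, OfNat.ofNat_ne_zero, not_false_eq_true, zero_pow,
      mul_zero, Real.exp_zero] at h
    exact h.mono_left nhdsWithin_le_nhds
  refine le_of_tendsto_of_tendsto h1 h2 ?_
  filter_upwards [self_mem_nhdsWithin] with t ht
  have ht' : 0 < t := ht
  refine hf.le _ fun h0 => ?_
  have := congrArg norm h0
  rw [norm_smul, hen, norm_zero, Real.norm_of_nonneg ht'.le] at this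
  linarith

/-! ### The Gaussian -/

lemma ga_cont : Continuous (ga α : E d → ℝ) := by
  unfold ga
  fun_prop

lemma ga_dec {a : ℝ} (ha : 0 < a) : Dec (fun x : E d => (ga a x : ℂ)) := by
  refine ⟨1, 2 ^ (d + 1) * (1 + (d + 1).factorial / a ^ (d + 1)), one_pos, fun x => ?_⟩
  set r := ‖x‖ with hr
  have hr0 : 0 ≤ r := norm_nonneg x
  have h3 : 0 < (1 + r) ^ (d + 1) := by positivity
  have h4 : (1 + r) ^ (-((d : ℝ) + 1)) = ((1 + r) ^ (d + 1))⁻¹ := by
    rw [Real.rpow_neg (by positivity), ← Real.rpow_natCast]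
    push_cast
    rfl
  have h5 : ‖(ga a x : ℂ)‖ = Real.exp (-a * r ^ 2) := by
    rw [Complex.norm_real]
    exact Real.norm_of_nonneg (Real.exp_pos _).le
  rw [h4, ← div_eq_mul_inv, le_div_iff₀ h3, h5]
  have h6 : Real.exp (-a * r ^ 2) ≤ 1 := by
    rw [Real.exp_le_one_iff]
    have : 0 ≤ a * r ^ 2 := by positivity
    linarith
  have h7 : (0 : ℝ) ≤ (d + 1).factorial / a ^ (d + 1) := by positivity
  rcases le_total r 1 with h | h
  · have h8 : (1 + r) ^ (d + 1) ≤ 2 ^ (d + 1) := pow_le_pow_left₀ (by linarith) (by linarith) _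
    calc Real.exp (-a * r ^ 2) * (1 + r) ^ (d + 1) ≤ 1 * 2 ^ (d + 1) :=
          mul_le_mul h6 h8 h3.le zero_le_one
      _ ≤ _ := by
          have : (0 : ℝ) < 2 ^ (d + 1) := by positivity
          nlinarith
  · have h8 : (1 + r) ^ (d + 1) ≤ (2 * r ^ 2) ^ (d + 1) :=
      pow_le_pow_left₀ (by linarith) (by nlinarith) _
    have h9 := Real.pow_div_factorial_le_exp (a * r ^ 2) (by positivity) (d + 1)
    have h10 : Real.exp (-a * r ^ 2) * (r ^ 2) ^ (d + 1) ≤ (d + 1).factorial / a ^ (d + 1) := by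
      rw [neg_mul, Real.exp_neg, inv_mul_le_iff₀ (Real.exp_pos _), mul_comm, div_mul_eq_mul_div,
        le_div_iff₀ (by positivity)]
      rw [div_le_iff₀ (by positivity), mul_pow] at h9
      linarith
    calc Real.exp (-a * r ^ 2) * (1 + r) ^ (d + 1)
        ≤ Real.exp (-a * r ^ 2) * (2 * r ^ 2) ^ (d + 1) :=
          mul_le_mul_of_nonneg_left h8 (Real.exp_pos _).le
      _ = 2 ^ (d + 1) * (Real.exp (-a * r ^ 2) * (r ^ 2) ^ (d + 1)) := by rw [mul_pow]; ring
      _ ≤ _ := mul_le_mul_of_nonneg_left (by linarith) (by positivity)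

/-- `∫ exp(-α |x|²) dx` -/
noncomputable def K (d : ℕ) (α : ℝ) : ℝ := (Real.pi / α) ^ ((d : ℝ) / 2)

lemma K_pos (hα : 0 < α) : 0 < K d α := Real.rpow_pos_of_pos (by have := Real.pi_pos; positivity) _

lemma ft_ga (hα : 0 < α) (y : E d) :
    ft (ga α) y = ((K d α * ga (Real.pi ^ 2 / α) y : ℝ) : ℂ) := by
  have h := fourier_gaussian_innerProductSpace (V := E d) (b := (α : ℂ)) (by simpa using hα) y
  unfold ft
  have e : (fun x : E d => ((ga α x : ℝ) : ℂ)) = fun v => Complex.exp (-(α : ℂ) * ‖v‖ ^ 2) := by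
    funext x
    unfold ga
    push_cast
    rfl
  rw [e, h]
  unfold K ga
  have hp : 0 ≤ Real.pi / α := by have := Real.pi_pos; positivity
  push_cast
  rw [← Complex.ofReal_div, Complex.ofReal_cpow hp]
  simp only [finrank_euclideanSpace, Fintype.card_fin]
  push_cast
  congr 2
  ring

lemma ga_adm (hα : 0 < α) : Admissible α (ga α : E d → ℝ) := by
  have h1 : 0 < Real.pi ^ 2 / α := by have := Real.pi_pos; positivity
  refine ⟨ga_cont, ga_dec hα, ?_, fun x _ => le_rfl, fun y => ?_, fun y => ?_⟩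
  · obtain ⟨e, C, he, h⟩ := ga_dec (d := d) h1
    refine ⟨e, K d α * C, he, fun y => ?_⟩
    rw [ft_ga hα, Complex.ofReal_mul, norm_mul, Complex.norm_real, Real.norm_of_nonneg (K_pos hα).le,
      mul_assoc]
    exact mul_le_mul_of_nonneg_left (h y) (K_pos hα).le
  · rw [ft_ga hα, Complex.ofReal_im]
  · rw [ft_ga hα, Complex.ofReal_re]
    exact mul_nonneg (K_pos hα).le (Real.exp_pos _).le

lemma ga_zero : ga α (0 : E d) = 1 := by simp [ga]

lemma int_ga (hα : 0 < α) : ∫ x : E d, ga α x = K d α := by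
  have h := ft_zero (ga α : E d → ℝ)
  rw [ft_ga hα, ga_zero, mul_one] at h
  exact (Complex.ofReal_injective h).symm

end Pool.Agent.J4.H46.LG
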