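import Pool.Agent.J4.H46.LG.Main

/-!
# Contact radii and zeros in every annulus: the quantitative statement
-/

set_option autoImplicit false

open MeasureTheory Filter Topology
open scoped FourierTransform RealInnerProductSpace ContDiff Convolution

namespace Pool.Agent.J4.H46.LG

variable {d : ℕ} {α : ℝ}

/-- a point of norm `R` -/
lemma exists_norm (hd : 1 ≤ d) {R : ℝ} (hR : 0 ≤ R) : ∃ x : E d, ‖x‖ = R := by
  refine ⟨EuclideanSpace.single (⟨0, hd⟩ : Fin d) R, ?_⟩
  simp [abs_of_nonneg hR]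

/-- the abstract perturbation argument -/
lemma abstract_step (hd : 1 ≤ d) {B s : E d → ℝ} {ρ R C M k δ : ℝ} (hR : 1 ≤ R) (hC : 1 ≤ C)
    (hM : 0 < M) (hB : Continuous B) (hc : HasCompactSupport B) (hBM : (∫ t, B t ^ 2) ≤ M)
    (hsupp : ∀ x, au B x ≠ 0 → ‖x‖ ≤ ρ ∨ (R ≤ ‖x‖ ∧ ‖x‖ ≤ C * R))
    (hs : Continuous s) (hs0 : ∀ x, 0 ≤ s x) (hk : 0 < k) (hsk : ∀ x, ‖x‖ ≤ ρ → k ≤ s x)
    (hδ0 : 0 ≤ δ) (hδ : M * δ < k)
    (h : ∀ t : ℝ, 0 ≤ t → (∀ x, t * au B x ≤ s x) → t ≤ δ) :
    ∃ x : E d, R ≤ ‖x‖ ∧ ‖x‖ ≤ C * R ∧ s x ≤ M * δ := by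
  have hcomp : IsCompact (Metric.closedBall (0 : E d) (C * R) ∩ {x : E d | R ≤ ‖x‖}) :=
    (isCompact_closedBall _ _).inter_right (isClosed_le continuous_const continuous_norm)
  obtain ⟨e, he⟩ := exists_norm hd (R := R) (by linarith)
  have hne : (Metric.closedBall (0 : E d) (C * R) ∩ {x : E d | R ≤ ‖x‖}).Nonempty := by
    refine ⟨e, ?_, he.ge⟩
    rw [mem_closedBall_zero_iff, he]
    nlinarith
  obtain ⟨x₀, hx₀, hmin⟩ := hcomp.exists_isMinOn hne hs.continuousOn
  refine ⟨x₀, hx₀.2, mem_closedBall_zero_iff.1 hx₀.1, ?_⟩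
  by_contra hcon
  have hcon' := not_le.1 hcon
  have hMδ : 0 ≤ M * δ := mul_nonneg hM.le hδ0
  have hη : 0 < s x₀ := lt_of_le_of_lt hMδ hcon'
  have hmm : 0 < min (s x₀) k := lt_min hη hk
  have hle := h (min (s x₀) k / M) (by positivity) (fun x => by
    by_cases hx : au B x = 0
    · rw [hx, mul_zero]
      exact hs0 x
    · have h6 : au B x ≤ M := (au_le hB hc x).trans hBM
      have h7 : min (s x₀) k / M * au B x ≤ min (s x₀) k := by
        calc min (s x₀) k / M * au B x ≤ min (s x₀) k / M * M :=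
              mul_le_mul_of_nonneg_left h6 (by positivity)
          _ = _ := div_mul_cancel₀ _ hM.ne'
      rcases hsupp x hx with h8 | h8
      · exact h7.trans ((min_le_right _ _).trans (hsk x h8))
      · exact h7.trans ((min_le_left _ _).trans
          (hmin ⟨mem_closedBall_zero_iff.2 h8.2, h8.1⟩)))
  rw [div_le_iff₀ hM] at hle
  have : M * δ < min (s x₀) k := lt_min hcon' hδ
  linarith

/-- the quantitative statement -/
theorem annulus (hd : 1 ≤ d) (hα : 0 < α) : ∃ ρ C D : ℝ, 0 < ρ ∧ 1 ≤ C ∧ 0 < D ∧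
    (∀ f : E d → ℝ, Admissible α f → ∀ R : ℝ, 1 ≤ R →
      (∃ x, R ≤ ‖x‖ ∧ ‖x‖ ≤ C * R ∧ ga α x - f x ≤ D * (LPB d α - val f)) ∧
      (∃ y, R ≤ ‖y‖ ∧ ‖y‖ ≤ C * R ∧ (ft f y).re ≤ D * (LPB d α - val f))) ∧
    (∀ f : E d → ℝ, Admissible α f → val f = LPB d α →
      ∀ x, ‖x‖ ≤ ρ → f x < ga α x ∧ 0 < (ft f x).re) := by
  have hp := pos_bound (d := d) hd hα
  have hg := ga_bound (d := d) hd hα
  have hK := K_pos (d := d) hα
  have hpi : 0 < Real.pi ^ 2 / α := by have := Real.pi_pos; positivity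
  set κ : ℝ := min (LPB d α - (K d α - 1)) (LPB d α) with hκ
  have hκ0 : 0 < κ := lt_min (by linarith) hp
  have hκ1 : κ ≤ LPB d α - (K d α - 1) := min_le_left _ _
  have hκ2 : κ ≤ LPB d α := min_le_right _ _
  -- the radius `ρ`
  have hc1 : ContinuousAt (ga α : E d → ℝ) 0 := ga_cont.continuousAt
  have hc2 : ContinuousAt (fun x : E d => K d α * ga (Real.pi ^ 2 / α) x) 0 :=
    (continuous_const.mul ga_cont).continuousAt
  obtain ⟨r1, hr1, h1⟩ := Metric.continuousAt_iff.1 hc1 (κ / 4) (by linarith)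
  obtain ⟨r2, hr2, h2⟩ := Metric.continuousAt_iff.1 hc2 (κ / 4) (by linarith)
  set ρ : ℝ := min r1 r2 / 2 with hρ
  have hmin : 0 < min r1 r2 := lt_min hr1 hr2
  have hρ0 : 0 < ρ := by positivity
  have hρ1 : ρ < r1 := by have := min_le_left r1 r2; linarith
  have hρ2 : ρ < r2 := by have := min_le_right r1 r2; linarith
  have hball : ∀ x : E d, ‖x‖ ≤ ρ →
      1 - κ / 4 ≤ ga α x ∧ K d α - κ / 4 ≤ K d α * ga (Real.pi ^ 2 / α) x := by
    intro x hx
    have h3 := h1 (x := x) (by rw [dist_zero_right]; linarith)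
    have h4 := h2 (x := x) (by rw [dist_zero_right]; linarith)
    rw [ga_zero, Real.dist_eq] at h3
    simp only [ga_zero, mul_one] at h4
    rw [Real.dist_eq] at h4
    have h5 := _root_.abs_lt.1 h3
    have h6 := _root_.abs_lt.1 h4
    constructor <;> linarith [h5.1, h6.1]
  -- near the origin
  have hnear : ∀ f : E d → ℝ, Admissible α f → LPB d α - val f ≤ κ / 2 → ∀ x, ‖x‖ ≤ ρ →
      κ / 4 ≤ ga α x - f x ∧ κ / 4 ≤ (ft f x).re := by
    intro f hf hδ x hx
    have h3 := hf.ft_zero_le hd hα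
    have h4 : val f = (ft f 0).re - f 0 := rfl
    have h5 := hf.zero_nonneg
    have h6 := (le_abs_self _).trans (hf.abs_le x)
    have h7 := (hf.ft_bounds hd hα x).1
    have h8 := hball x hx
    constructor
    · linarith [h8.1]
    · linarith [h8.2]
  obtain ⟨C, M, hC, hM, hex⟩ := exists_B (d := d) hd hρ0
  set δ₀ : ℝ := min (κ / 2) (κ / (4 * M)) with hδ₀
  have hδ₀0 : 0 < δ₀ := lt_min (by positivity) (by positivity)
  refine ⟨ρ, C, M + (2 + 2 * K d α) / δ₀, hρ0, hC, by positivity, ?_, ?_⟩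
  · intro f hf R hR
    have hval := val_le hd hα hf
    set δ : ℝ := LPB d α - val f with hδ
    have hδn : 0 ≤ δ := by linarith
    have hDM : M * δ ≤ (M + (2 + 2 * K d α) / δ₀) * δ := by
      have : 0 ≤ (2 + 2 * K d α) / δ₀ := by positivity
      nlinarith [mul_nonneg this hδn]
    by_cases hsmall : δ < δ₀
    · have hs1 : δ ≤ κ / 2 := (hsmall.trans_le (min_le_left _ _)).le
      have hs2 : M * δ < κ / 4 := by
        have h3 : δ < κ / (4 * M) := hsmall.trans_le (min_le_right _ _)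
        rw [lt_div_iff₀ (by positivity)] at h3
        linarith
      obtain ⟨B, hB, hc, hB0, hB1, hB2, hB3⟩ := hex R hR
      rw [← au_zero] at hB2
      constructor
      · obtain ⟨x, hx1, hx2, hx3⟩ := abstract_step hd (s := fun x => ga α x - f x) hR hC hM
          hB.continuous hc hB1 hB3 (ga_cont.sub hf.cont)
          (fun x => by have := hf.ae_le hd x; show 0 ≤ ga α x - f x; linarith) (by positivity)
          (fun x hx => (hnear f hf hs1 x hx).1) hδn hs2 (fun t ht h => by
            have h3 := adm_add hf hB hc ht (fun x _ => by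
              have h4 := h x
              simp only [ga] at h4
              linarith)
            have h4 := val_le hd hα h3.1
            rw [h3.2] at h4
            have h5 : t * 1 ≤ t * (sq B 0 - au B 0) :=
              mul_le_mul_of_nonneg_left (by linarith) ht
            linarith)
        exact ⟨x, hx1, hx2, hx3.trans hDM⟩
      · obtain ⟨x, hx1, hx2, hx3⟩ := abstract_step hd (s := fun x => (ft f x).re) hR hC hM
          hB.continuous hc hB1 hB3 (Complex.continuous_re.comp (ft_continuous hf.int))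
          hf.re (by positivity)
          (fun x hx => (hnear f hf hs1 x hx).2) hδn hs2 (fun t ht h => by
            have h3 := adm_sub hf hB hc ht h
            have h4 := val_le hd hα h3.1
            rw [h3.2] at h4
            have h5 : t * 1 ≤ t * (sq B 0 - au B 0) :=
              mul_le_mul_of_nonneg_left (by linarith) ht
            linarith)
        exact ⟨x, hx1, hx2, hx3.trans hDM⟩
    · have hbig : δ₀ ≤ δ := not_lt.1 hsmall
      obtain ⟨e, he⟩ := exists_norm hd (R := R) (by linarith)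
      have hD : 2 + 2 * K d α ≤ (M + (2 + 2 * K d α) / δ₀) * δ := by
        have h3 : 2 + 2 * K d α ≤ (2 + 2 * K d α) / δ₀ * δ := by
          rw [div_mul_eq_mul_div, le_div_iff₀ hδ₀0]
          exact mul_le_mul_of_nonneg_left hbig (by positivity)
        have h4 : 0 ≤ M * δ := mul_nonneg hM.le hδn
        linarith
      have hga : ga α e ≤ 1 := by
        unfold ga
        rw [Real.exp_le_one_iff]
        have : 0 ≤ α * ‖e‖ ^ 2 := by positivity
        linarith
      have h5 := hf.abs_le e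
      have h6 := hf.zero_le hd
      have h7 := (neg_abs_le (f e))
      have h8 := (hf.ft_bounds hd hα e).2
      refine ⟨⟨e, he.ge, by rw [he]; nlinarith, ?_⟩, ⟨e, he.ge, by rw [he]; nlinarith, ?_⟩⟩
      · linarith
      · linarith
  · intro f hf hv x hx
    have h3 := hnear f hf (by rw [hv, sub_self]; positivity) x hx
    constructor
    · linarith [h3.1]
    · linarith [h3.2]

end Pool.Agent.J4.H46.LG
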