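import Pool.Agent.J4.H46.LG.Test

/-!
# Test functions for the linear programming bound for Gaussian energy: equally spaced bumps
-/

set_option autoImplicit false

open MeasureTheory Filter Topology
open scoped FourierTransform RealInnerProductSpace ContDiff Convolution

namespace Pool.Agent.J4.H46.LG

variable {d : ℕ}

theorem exists_B (hd : 1 ≤ d) {ρ : ℝ} (hρ : 0 < ρ) : ∃ C M : ℝ, 1 ≤ C ∧ 0 < M ∧
    ∀ R : ℝ, 1 ≤ R → ∃ B : E d → ℝ, ContDiff ℝ ∞ B ∧ HasCompactSupport B ∧ (∀ x, 0 ≤ B x) ∧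
      (∫ t, B t ^ 2) ≤ M ∧ (∫ t, B t ^ 2) + 1 ≤ sq B 0 ∧
      ∀ x, au B x ≠ 0 → ‖x‖ ≤ ρ ∨ (R ≤ ‖x‖ ∧ ‖x‖ ≤ C * R) := by
  let β : ContDiffBump (0 : E d) := ⟨ρ / 4, ρ / 2, by positivity, by linarith⟩
  have hI : 0 < ∫ x, β x := β.integral_pos
  set I := ∫ x, β x with hIdef
  set n : ℕ := ⌈2 / I⌉₊ with hn
  have hn1 : 2 ≤ (n + 1 : ℝ) * I := by
    have h1 : 2 / I ≤ n := Nat.le_ceil _
    rw [div_le_iff₀ hI] at h1
    nlinarith
  have hβ : ∀ x : E d, β x ≠ 0 → ‖x‖ < ρ / 2 := by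
    intro x hx
    have h1 : x ∈ Function.support β := hx
    rw [β.support_eq, mem_ball_zero_iff] at h1
    exact h1
  have hβi : Integrable (fun x : E d => β x) := β.integrable
  refine ⟨n * (1 + ρ) + ρ + 1, (n + 1) * I, ?_, by positivity, fun R hR => ?_⟩
  · have : 0 ≤ n * (1 + ρ) := by positivity
    linarith
  set v : E d := EuclideanSpace.single (⟨0, hd⟩ : Fin d) (R + ρ) with hv
  have hvn : ‖v‖ = R + ρ := by
    rw [hv, EuclideanSpace.norm_single, Real.norm_of_nonneg (by linarith)]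
  set B : E d → ℝ := fun x => ∑ j ∈ Finset.range (n + 1), β (x - (j : ℝ) • v) with hB
  have hBne : ∀ x, B x ≠ 0 → ∃ j ∈ Finset.range (n + 1), ‖x - (j : ℝ) • v‖ < ρ / 2 := by
    intro x hx
    obtain ⟨j, hj, h1⟩ := Finset.exists_ne_zero_of_sum_ne_zero hx
    exact ⟨j, hj, hβ _ h1⟩
  have hB0 : ∀ x, 0 ≤ B x := fun x => Finset.sum_nonneg fun j _ => β.nonneg
  have hdiff : ∀ j k : ℕ, j ≠ k → R + ρ ≤ ‖((j : ℝ) - k) • v‖ := by
    intro j k hjk
    rw [norm_smul, hvn, Real.norm_eq_abs]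
    have h1 : (1 : ℝ) ≤ |(j : ℝ) - k| := by
      have : (1 : ℤ) ≤ |(j : ℤ) - k| := Int.one_le_abs (by omega)
      exact_mod_cast this
    nlinarith
  have hB1 : ∀ x, B x ≤ 1 := by
    intro x
    by_cases hx : B x = 0
    · rw [hx]; exact zero_le_one
    · obtain ⟨j, hj, h1⟩ := hBne x hx
      have h2 : B x = β (x - (j : ℝ) • v) := by
        refine Finset.sum_eq_single_of_mem j hj fun k _ hkj => ?_
        by_contra hk
        have h3 := hβ _ hk
        have h4 := hdiff k j hkj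
        have h5 : ((k : ℝ) - j) • v = (x - (j : ℝ) • v) - (x - (k : ℝ) • v) := by
          rw [sub_smul]; abel
        rw [h5] at h4
        have h6 := norm_sub_le (x - (j : ℝ) • v) (x - (k : ℝ) • v)
        linarith
      rw [h2]
      exact β.le_one
  have hBd : ContDiff ℝ ∞ B := ContDiff.sum fun j _ => β.contDiff.comp (contDiff_id.sub contDiff_const)
  have hBc : HasCompactSupport B := by
    refine HasCompactSupport.intro (isCompact_closedBall (0 : E d) (n * (R + ρ) + ρ)) fun x hx => ?_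
    by_contra h
    obtain ⟨j, hj, h1⟩ := hBne x h
    apply hx
    rw [mem_closedBall_zero_iff]
    have h2 : ‖x‖ ≤ ‖x - (j : ℝ) • v‖ + ‖(j : ℝ) • v‖ := by
      have := norm_add_le (x - (j : ℝ) • v) ((j : ℝ) • v)
      rwa [sub_add_cancel] at this
    have h3 : ‖(j : ℝ) • v‖ ≤ n * (R + ρ) := by
      rw [norm_smul, hvn, Real.norm_of_nonneg (Nat.cast_nonneg j)]
      have : (j : ℝ) ≤ n := by exact_mod_cast Nat.lt_succ_iff.1 (Finset.mem_range.1 hj)
      nlinarith
    linarith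
  have hBi : Integrable B := hBd.continuous.integrable_of_hasCompactSupport hBc
  have hBint : ∫ t, B t = (n + 1) * I := by
    rw [hB, integral_finsetSum _ fun j _ => hβi.comp_sub_right _]
    have : ∀ j ∈ Finset.range (n + 1), ∫ t, β (t - (j : ℝ) • v) = I := fun j _ =>
      integral_sub_right_eq_self (fun t => β t) _
    rw [Finset.sum_congr rfl this, Finset.sum_const, Finset.card_range, nsmul_eq_mul]
    push_cast
    ring
  have hBsq : (∫ t, B t ^ 2) ≤ (n + 1) * I := by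
    rw [← hBint]
    refine integral_mono_of_nonneg (Eventually.of_forall fun t => sq_nonneg _) hBi
      (Eventually.of_forall fun t => ?_)
    show B t ^ 2 ≤ B t
    nlinarith [hB0 t, hB1 t]
  refine ⟨B, hBd, hBc, hB0, hBsq, ?_, fun x hx => ?_⟩
  · have h1 : sq B 0 = ((n + 1) * I) ^ 2 := by
      unfold sq
      rw [ft_zero, hBint, Complex.norm_real, Real.norm_eq_abs, sq_abs]
    rw [h1]
    nlinarith
  · obtain ⟨t, h1, h2⟩ := au_ne hx
    obtain ⟨j, hj, h3⟩ := hBne _ h1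
    obtain ⟨k, hk, h4⟩ := hBne _ h2
    have h5 : x - ((j : ℝ) - k) • v = (t - (j : ℝ) • v) - (t - x - (k : ℝ) • v) := by
      rw [sub_smul]; abel
    have h6 : ‖x - ((j : ℝ) - k) • v‖ ≤ ρ := by
      rw [h5]
      have := norm_sub_le (t - (j : ℝ) • v) (t - x - (k : ℝ) • v)
      linarith
    by_cases hjk : j = k
    · left
      rw [hjk, sub_self, zero_smul, sub_zero] at h6
      exact h6
    · right
      have h7 := hdiff j k hjk
      have h8 : ‖((j : ℝ) - k) • v‖ ≤ ‖x‖ + ‖x - ((j : ℝ) - k) • v‖ := by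
        have := norm_sub_le x (x - ((j : ℝ) - k) • v)
        rwa [sub_sub_cancel] at this
      have h9 : ‖x‖ ≤ ‖x - ((j : ℝ) - k) • v‖ + ‖((j : ℝ) - k) • v‖ := by
        have := norm_add_le (x - ((j : ℝ) - k) • v) (((j : ℝ) - k) • v)
        rwa [sub_add_cancel] at this
      refine ⟨by linarith, ?_⟩
      have h10 : ‖((j : ℝ) - k) • v‖ ≤ n * (R + ρ) := by
        rw [norm_smul, hvn, Real.norm_eq_abs]
        have a1 : (j : ℝ) ≤ n := by exact_mod_cast Nat.lt_succ_iff.1 (Finset.mem_range.1 hj)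
        have a2 : (k : ℝ) ≤ n := by exact_mod_cast Nat.lt_succ_iff.1 (Finset.mem_range.1 hk)
        have a3 : |(j : ℝ) - k| ≤ n := by
          rw [abs_le]
          have := (Nat.cast_nonneg j : (0 : ℝ) ≤ j)
          have := (Nat.cast_nonneg k : (0 : ℝ) ≤ k)
          constructor <;> linarith
        nlinarith
      have h11 : (0 : ℝ) ≤ n := Nat.cast_nonneg n
      nlinarith [mul_nonneg h11 hρ.le, mul_nonneg (mul_nonneg h11 hρ.le) (by linarith : (0 : ℝ) ≤ R - 1)]

end Pool.Agent.J4.H46.LG
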