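import Pool.Agent.J4.H46.LG.Adm

/-!
# Contact radii and zeros in every annulus: the perturbations
-/

set_option autoImplicit false

open MeasureTheory Filter Topology
open scoped FourierTransform RealInnerProductSpace ContDiff Convolution

namespace Pool.Agent.J4.H46.LG

variable {d : ℕ} {α : ℝ}

/-- the first perturbation -/
lemma adm_add {f B : E d → ℝ} (hf : Admissible α f) (hB : ContDiff ℝ ∞ B)
    (hc : HasCompactSupport B) {t : ℝ} (ht : 0 ≤ t)
    (h : ∀ x, x ≠ 0 → f x + t * au B x ≤ Real.exp (-α * ‖x‖ ^ 2)) :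
    Admissible α (fun x => f x + t * au B x) ∧
      val (fun x => f x + t * au B x) = val f + t * (sq B 0 - au B 0) := by
  have hb := hB.continuous
  have hcont := au_cont hb hc
  have hint : Integrable (au B) := hcont.integrable_of_hasCompactSupport (au_supp hc)
  have e : ∀ y, ft (fun x => f x + t * au B x) y = ft f y + t * ((sq B y : ℝ) : ℂ) := by
    intro y
    rw [ft_add hf.int hint, ft_au hb hc]
    rfl
  have hsq : ∀ y, 0 ≤ sq B y := fun y => by unfold sq; positivity
  refine ⟨⟨hf.cont.add (continuous_const.mul hcont), ?_, ?_, h, fun y => ?_, fun y => ?_⟩, ?_⟩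
  · have := hf.dec.add (dec_cs hcont (au_supp hc)) (t : ℂ)
    simpa using this
  · have := hf.dec_ft.add (dec_sq hB hc) (t : ℂ)
    have e' : ft (fun x => f x + t * au B x) = fun y => ft f y + t * ((sq B y : ℝ) : ℂ) := funext e
    rw [e']
    exact this
  · rw [e, ← Complex.ofReal_mul, Complex.add_im, Complex.ofReal_im, add_zero]
    exact hf.im y
  · rw [e, ← Complex.ofReal_mul, Complex.add_re, Complex.ofReal_re]
    have := hf.re y
    have := mul_nonneg ht (hsq y)
    linarith
  · unfold val
    rw [e, ← Complex.ofReal_mul, Complex.add_re, Complex.ofReal_re]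
    ring

/-- the second perturbation -/
lemma adm_sub {f B : E d → ℝ} (hf : Admissible α f) (hB : ContDiff ℝ ∞ B)
    (hc : HasCompactSupport B) {t : ℝ} (ht : 0 ≤ t) (h : ∀ y, t * au B y ≤ (ft f y).re) :
    Admissible α (fun x => f x + -t * sq B x) ∧
      val (fun x => f x + -t * sq B x) = val f + t * (sq B 0 - au B 0) := by
  have hb := hB.continuous
  have hcont := sq_cont hb hc
  have hint : Integrable (sq B) := by
    have := (dec_sq hB hc).integrable (Complex.continuous_ofReal.comp hcont)
    exact this.re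
  have e : ∀ y, ft (fun x => f x + -t * sq B x) y = ft f y + (-t * au B y : ℝ) := by
    intro y
    rw [ft_add hf.int hint, ft_sq hB hc]
    push_cast
    ring
  have hsq : ∀ y, 0 ≤ sq B y := fun y => by unfold sq; positivity
  refine ⟨⟨hf.cont.add (continuous_const.mul hcont), ?_, ?_, fun x hx => ?_, fun y => ?_,
    fun y => ?_⟩, ?_⟩
  · have := hf.dec.add (dec_sq hB hc) ((-t : ℝ) : ℂ)
    simpa using this
  · have := hf.dec_ft.add (dec_cs (au_cont hb hc) (au_supp hc)) ((-t : ℝ) : ℂ)
    have e' : ft (fun x => f x + -t * sq B x) =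
        fun y => ft f y + ((-t : ℝ) : ℂ) * ((au B y : ℝ) : ℂ) := by
      funext y
      rw [e, Complex.ofReal_mul]
    rw [e']
    exact this
  · have h1 := hf.le x hx
    have h2 := mul_nonneg ht (hsq x)
    show f x + -t * sq B x ≤ _
    linarith
  · rw [e, Complex.add_im, Complex.ofReal_im, add_zero]
    exact hf.im y
  · rw [e, Complex.add_re, Complex.ofReal_re]
    have := h y
    linarith
  · unfold val
    rw [e, Complex.add_re, Complex.ofReal_re]
    ring

/-- `f ≤ exp(-α|x|²)` almost everywhere -/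
lemma Admissible.ae_le {f : E d → ℝ} (hd : 1 ≤ d) (hf : Admissible α f) (x : E d) :
    f x ≤ ga α x := by
  by_cases h : x = 0
  · subst h
    rw [ga_zero]
    exact hf.zero_le hd
  · exact hf.le x h

lemma Admissible.ft_zero_le {f : E d → ℝ} (hd : 1 ≤ d) (hα : 0 < α) (hf : Admissible α f) :
    (ft f 0).re ≤ K d α := by
  rw [ft_zero, Complex.ofReal_re, ← int_ga hα]
  exact integral_mono hf.int (ga_adm hα).int (hf.ae_le hd)

/-- `f̂(y) ≥ Ĝ(y) - Ĝ(0) + f̂(0)` and `f̂(y) ≤ Ĝ(y) + Ĝ(0)` -/
lemma Admissible.ft_bounds {f : E d → ℝ} (hd : 1 ≤ d) (hα : 0 < α) (hf : Admissible α f)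
    (y : E d) : K d α * ga (Real.pi ^ 2 / α) y - K d α + (ft f 0).re ≤ (ft f y).re ∧
      (ft f y).re ≤ 2 * K d α := by
  have hi := hf.int
  have hg := (ga_adm (d := d) hα).int
  have h1 := ft_add hg hi (-1) y
  have h2 : ‖ft (fun x => ga α x + -1 * f x) y‖ ≤ K d α - (ft f 0).re := by
    rw [ft_eq]
    refine (norm_integral_le_integral_norm _).trans ?_
    rw [ft_zero, Complex.ofReal_re, ← int_ga (d := d) hα, ← integral_sub hg hi]
    refine le_of_eq (integral_congr_ae (Eventually.of_forall fun x => ?_))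
    show ‖_ • (((ga α x + -1 * f x : ℝ)) : ℂ)‖ = _
    rw [norm_smul, Complex.norm_exp_ofReal_mul_I, one_mul, Complex.norm_real,
      Real.norm_of_nonneg (by have := hf.ae_le hd x; linarith)]
    ring
  have h3 := (Complex.abs_re_le_norm _).trans h2
  rw [h1, ft_ga hα, Complex.add_re, Complex.ofReal_re] at h3
  have h4 : (((-1 : ℝ) : ℂ) * ft f y).re = -(ft f y).re := by simp
  rw [h4] at h3
  have h5 := _root_.abs_le.1 h3
  have h6 := hf.re 0
  have h7 : ga (Real.pi ^ 2 / α) y ≤ 1 := by
    unfold ga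
    rw [Real.exp_le_one_iff]
    have : 0 ≤ Real.pi ^ 2 / α * ‖y‖ ^ 2 := by positivity
    linarith
  have h8 : K d α * ga (Real.pi ^ 2 / α) y ≤ K d α := by
    have := K_pos (d := d) hα
    nlinarith
  constructor <;> linarith [h5.1, h5.2]

lemma bdd (hd : 1 ≤ d) (hα : 0 < α) :
    BddAbove {v : ℝ | ∃ f : E d → ℝ, Admissible α f ∧ v = val f} := by
  refine ⟨K d α, ?_⟩
  rintro v ⟨f, hf, rfl⟩
  have := hf.ft_zero_le hd hα
  have := hf.zero_nonneg
  unfold val
  linarith

lemma val_le {f : E d → ℝ} (hd : 1 ≤ d) (hα : 0 < α) (hf : Admissible α f) :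
    val f ≤ LPB d α := le_csSup (bdd hd hα) ⟨f, hf, rfl⟩

lemma zero_adm : Admissible α (fun _ : E d => (0 : ℝ)) := by
  have h : ∀ y, ft (fun _ : E d => (0 : ℝ)) y = 0 := by
    intro y
    rw [ft_eq]
    simp
  have h2 : Dec (fun _ : E d => (0 : ℂ)) := ⟨1, 0, one_pos, fun x => by simp⟩
  refine ⟨continuous_const, by simpa using h2, ?_, fun x _ => (Real.exp_pos _).le, fun y => ?_,
    fun y => ?_⟩
  · have : ft (fun _ : E d => (0 : ℝ)) = fun _ => 0 := funext h
    rw [this]
    exact h2
  · rw [h]; rfl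
  · rw [h]; exact le_rfl

/-- the bound is positive -/
lemma pos_bound (hd : 1 ≤ d) (hα : 0 < α) : 0 < LPB d α := by
  obtain ⟨C, M, hC, hM, h⟩ := exists_B (d := d) hd one_pos
  obtain ⟨B, hB, hc, hB0, h1, h2, h3⟩ := h 1 le_rfl
  set m : ℝ := Real.exp (-α * C ^ 2) with hm
  have hm0 : 0 < m := Real.exp_pos _
  have h4 := adm_add (f := fun _ : E d => (0 : ℝ)) (α := α) zero_adm hB hc (t := m / M)
    (by positivity) ?_
  · have h5 := val_le hd hα h4.1
    rw [h4.2] at h5
    have h6 : val (fun _ : E d => (0 : ℝ)) = 0 := by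
      unfold val
      rw [ft_zero]
      simp
    rw [h6, zero_add, au_zero] at h5
    have h7 : 0 < m / M := by positivity
    have h8 : m / M * 1 ≤ m / M * (sq B 0 - ∫ t, B t ^ 2) :=
      mul_le_mul_of_nonneg_left (by linarith) h7.le
    linarith
  · intro x _
    rw [zero_add]
    by_cases hx : au B x = 0
    · rw [hx, mul_zero]
      exact (Real.exp_pos _).le
    · have h5 : ‖x‖ ≤ C := by
        rcases h3 x hx with h5 | h5
        · linarith
        · linarith [h5.2]
      have h6 : au B x ≤ M := (au_le hB.continuous hc x).trans h1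
      calc m / M * au B x ≤ m / M * M := mul_le_mul_of_nonneg_left h6 (by positivity)
        _ = m := div_mul_cancel₀ _ hM.ne'
        _ ≤ Real.exp (-α * ‖x‖ ^ 2) := by
          rw [hm, Real.exp_le_exp]
          have : ‖x‖ ^ 2 ≤ C ^ 2 := pow_le_pow_left₀ (norm_nonneg x) h5 2
          nlinarith

/-- the bound is larger than the value of the potential itself -/
lemma ga_bound (hd : 1 ≤ d) (hα : 0 < α) : K d α - 1 < LPB d α := by
  obtain ⟨C, M, hC, hM, h⟩ := exists_B (d := d) hd one_pos
  obtain ⟨B, hB, hc, hB0, h1, h2, h3⟩ := h 1 le_rfl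
  have hK := K_pos (d := d) hα
  have hp : 0 < Real.pi ^ 2 / α := by have := Real.pi_pos; positivity
  set m : ℝ := K d α * Real.exp (-(Real.pi ^ 2 / α) * C ^ 2) with hm
  have hm0 : 0 < m := by positivity
  have h4 := adm_sub (f := (ga α : E d → ℝ)) (ga_adm hα) hB hc (t := m / M) (by positivity) ?_
  · have h5 := val_le hd hα h4.1
    rw [h4.2] at h5
    have h6 : val (ga α : E d → ℝ) = K d α - 1 := by
      unfold val
      rw [ft_ga hα, ga_zero, ga_zero]
      simp
    rw [h6, au_zero] at h5
    have h7 : 0 < m / M := by positivity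
    have h8 : m / M * 1 ≤ m / M * (sq B 0 - ∫ t, B t ^ 2) :=
      mul_le_mul_of_nonneg_left (by linarith) h7.le
    linarith
  · intro y
    rw [ft_ga hα, Complex.ofReal_re]
    by_cases hy : au B y = 0
    · rw [hy, mul_zero]
      exact mul_nonneg hK.le (Real.exp_pos _).le
    · have h5 : ‖y‖ ≤ C := by
        rcases h3 y hy with h5 | h5
        · linarith
        · linarith [h5.2]
      have h6 : au B y ≤ M := (au_le hB.continuous hc y).trans h1
      calc m / M * au B y ≤ m / M * M := mul_le_mul_of_nonneg_left h6 (by positivity)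
        _ = m := div_mul_cancel₀ _ hM.ne'
        _ ≤ K d α * ga (Real.pi ^ 2 / α) y := by
          rw [hm]
          refine mul_le_mul_of_nonneg_left ?_ hK.le
          unfold ga
          rw [Real.exp_le_exp]
          have : ‖y‖ ^ 2 ≤ C ^ 2 := pow_le_pow_left₀ (norm_nonneg y) h5 2
          nlinarith

end Pool.Agent.J4.H46.LG
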