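import Pool.Agent.J4.H46.LG.Annulus

/-!
# Optimal linear programming functions for Gaussian energy: contact radii and zeros in every annulus

`LPB d α` is the optimal linear programming bound `B_d(α)`. For every dimension `d ≥ 1` and every
`α > 0` the contact radii and the radii of the zeros of the Fourier transform of every function
that attains the bound meet every interval `[R, C R]` with `R ≥ 1`, and stay away from `0`. The
quantitative form holds for all admissible functions, optimal or not.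
-/

set_option autoImplicit false

open MeasureTheory Filter Topology

namespace Pool.Agent.J4.H46.LG.Radii

open Pool.Agent.J4.H46.LG

/-- The contact radii of `f`: the norms of the points `x ≠ 0` with `f(x) = exp(-α |x|²)`. -/
def T {d : ℕ} (α : ℝ) (f : E d → ℝ) : Set ℝ :=
  {r | ∃ x : E d, x ≠ 0 ∧ f x = Real.exp (-α * ‖x‖ ^ 2) ∧ ‖x‖ = r}

/-- The norms of the zeros `y ≠ 0` of the Fourier transform of `f`. -/
def Z {d : ℕ} (f : E d → ℝ) : Set ℝ :=
  {r | ∃ y : E d, y ≠ 0 ∧ ft f y = 0 ∧ ‖y‖ = r}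

/-- a set of reals that meets every `[R, C R]` is infinite -/
lemma infinite_of_annuli {S : Set ℝ} {C : ℝ}
    (h : ∀ R : ℝ, 1 ≤ R → (S ∩ Set.Icc R (C * R)).Nonempty) : S.Infinite := by
  intro hfin
  obtain ⟨m, hm⟩ := hfin.bddAbove
  obtain ⟨r, hr, hr2⟩ := h (max 1 (m + 1)) (le_max_left _ _)
  have h1 := hm hr
  have h2 := hr2.1
  have h3 := le_max_right 1 (m + 1)
  linarith

theorem radii_in_every_annulus (d : ℕ) (hd : 1 ≤ d) (α : ℝ) (hα : 0 < α) :
    BddAbove {v : ℝ | ∃ f : E d → ℝ, Admissible α f ∧ v = val f} ∧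
    ∃ ρ C D : ℝ, 0 < ρ ∧ 1 ≤ C ∧ 0 < D ∧
      (∀ f : E d → ℝ, Admissible α f → ∀ R : ℝ, 1 ≤ R →
        (∃ x : E d, R ≤ ‖x‖ ∧ ‖x‖ ≤ C * R ∧
          Real.exp (-α * ‖x‖ ^ 2) - f x ≤ D * (LPB d α - val f)) ∧
        (∃ y : E d, R ≤ ‖y‖ ∧ ‖y‖ ≤ C * R ∧ (ft f y).re ≤ D * (LPB d α - val f))) ∧
      (∀ f : E d → ℝ, Admissible α f → val f = LPB d α →
        (∀ R : ℝ, 1 ≤ R → (T α f ∩ Set.Icc R (C * R)).Nonempty ∧
          (Z f ∩ Set.Icc R (C * R)).Nonempty) ∧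
        (T α f).Infinite ∧ (Z f).Infinite ∧
        ∀ r ∈ T α f ∪ Z f, ρ < r) := by
  refine ⟨bdd hd hα, ?_⟩
  obtain ⟨ρ, C, D, hρ, hC, hD, h1, h2⟩ := annulus (d := d) hd hα
  refine ⟨ρ, C, D, hρ, hC, hD, h1, fun f hf hv => ?_⟩
  have h3 : ∀ R : ℝ, 1 ≤ R → (T α f ∩ Set.Icc R (C * R)).Nonempty ∧
      (Z f ∩ Set.Icc R (C * R)).Nonempty := by
    intro R hR
    obtain ⟨⟨x, hx1, hx2, hx3⟩, ⟨y, hy1, hy2, hy3⟩⟩ := h1 f hf R hR
    rw [hv, sub_self, mul_zero] at hx3 hy3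
    constructor
    · have hx0 : x ≠ 0 := by
        intro h
        rw [h, norm_zero] at hx1
        linarith
      refine ⟨‖x‖, ⟨x, hx0, le_antisymm (hf.le x hx0) ?_, rfl⟩, hx1, hx2⟩
      have hx3' : Real.exp (-α * ‖x‖ ^ 2) - f x ≤ 0 := hx3
      linarith
    · have hy0 : y ≠ 0 := by
        intro h
        rw [h, norm_zero] at hy1
        linarith
      exact ⟨‖y‖, ⟨y, hy0, Complex.ext (le_antisymm hy3 (hf.re y)) (hf.im y), rfl⟩, hy1, hy2⟩
  refine ⟨h3, infinite_of_annuli fun R hR => (h3 R hR).1,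
    infinite_of_annuli fun R hR => (h3 R hR).2, ?_⟩
  rintro r (⟨x, _, hx, rfl⟩ | ⟨y, _, hy, rfl⟩)
  · by_contra hcon
    have h4 := (h2 f hf hv x (not_lt.1 hcon)).1
    rw [hx] at h4
    exact lt_irrefl _ h4
  · by_contra hcon
    have h4 := (h2 f hf hv y (not_lt.1 hcon)).2
    rw [hy] at h4
    exact lt_irrefl _ h4

end Pool.Agent.J4.H46.LG.Radii
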