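import Mathlib

/-!
# Test functions for the linear programming bound for Gaussian energy
-/

set_option autoImplicit false

open MeasureTheory Filter Topology
open scoped FourierTransform RealInnerProductSpace ContDiff Convolution

namespace Pool.Agent.J4.H46.LG

/-- the Euclidean space -/
abbrev E (d : ℕ) := EuclideanSpace ℝ (Fin d)

variable {d : ℕ}

/-- the Fourier transform `∫ f(x) exp(-2π i ⟨x, y⟩) dx` -/
noncomputable def ft (f : E d → ℝ) (y : E d) : ℂ := 𝓕 (fun x => (f x : ℂ)) y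

/-- `F(x) = O((1 + |x|) ^ (-d - ε))` for some `ε > 0` -/
def Dec (F : E d → ℂ) : Prop :=
  ∃ ε C : ℝ, 0 < ε ∧ ∀ x, ‖F x‖ ≤ C * (1 + ‖x‖) ^ (-((d : ℝ) + ε))

lemma ft_eq (f : E d → ℝ) (y : E d) :
    ft f y = ∫ x, Complex.exp ((↑(-2 * Real.pi * ⟪x, y⟫) * Complex.I)) • (f x : ℂ) :=
  Real.fourier_eq' _ _

lemma ft_zero (f : E d → ℝ) : ft f 0 = ((∫ x, f x : ℝ) : ℂ) := by
  rw [ft_eq, ← integral_complex_ofReal]
  simp

lemma ft_conj (f : E d → ℝ) (y : E d) : (starRingEnd ℂ) (ft f y) = ft f (-y) := by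
  rw [ft_eq, ft_eq, ← integral_conj]
  refine integral_congr_ae (Eventually.of_forall fun x => ?_)
  simp only [smul_eq_mul, map_mul, Complex.conj_ofReal, ← Complex.exp_conj, Complex.conj_I,
    inner_neg_right]
  congr 2
  push_cast
  ring

lemma ft_comp_neg (f : E d → ℝ) (y : E d) : ft (fun x => f (-x)) y = ft f (-y) := by
  rw [ft_eq, ft_eq, ← integral_neg_eq_self]
  refine integral_congr_ae (Eventually.of_forall fun x => ?_)
  simp only [neg_neg, inner_neg_left, inner_neg_right]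

lemma Dec.mono_exp {F : E d → ℂ} {e e' C : ℝ} (he : e' ≤ e)
    (h : ∀ x, ‖F x‖ ≤ C * (1 + ‖x‖) ^ (-((d : ℝ) + e))) (x : E d) :
    ‖F x‖ ≤ |C| * (1 + ‖x‖) ^ (-((d : ℝ) + e')) := by
  refine (h x).trans ?_
  have h1 : (1 + ‖x‖) ^ (-((d : ℝ) + e)) ≤ (1 + ‖x‖) ^ (-((d : ℝ) + e')) :=
    Real.rpow_le_rpow_of_exponent_le (by linarith [norm_nonneg x]) (by linarith)
  have h2 : 0 ≤ (1 + ‖x‖) ^ (-((d : ℝ) + e)) := Real.rpow_nonneg (by positivity) _
  calc C * (1 + ‖x‖) ^ (-((d : ℝ) + e)) ≤ |C| * (1 + ‖x‖) ^ (-((d : ℝ) + e)) :=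
        mul_le_mul_of_nonneg_right (le_abs_self C) h2
    _ ≤ _ := mul_le_mul_of_nonneg_left h1 (abs_nonneg C)

lemma Dec.add {F G : E d → ℂ} (hF : Dec F) (hG : Dec G) (t : ℂ) :
    Dec (fun x => F x + t * G x) := by
  obtain ⟨e, C, he, h⟩ := hF
  obtain ⟨e', C', he', h'⟩ := hG
  refine ⟨min e e', |C| + ‖t‖ * |C'|, lt_min he he', fun x => ?_⟩
  have h1 := Dec.mono_exp (min_le_left e e') h x
  have h2 := Dec.mono_exp (min_le_right e e') h' x
  calc ‖F x + t * G x‖ ≤ ‖F x‖ + ‖t‖ * ‖G x‖ := (norm_add_le _ _).trans (by rw [norm_mul])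
    _ ≤ _ := by
      have := mul_le_mul_of_nonneg_left h2 (norm_nonneg t)
      linarith

lemma Dec.integrable {F : E d → ℂ} (hF : Dec F) (hc : Continuous F) : Integrable F := by
  obtain ⟨e, C, he, h⟩ := hF
  have h1 : Integrable (fun x : E d => (1 + ‖x‖) ^ (-((d : ℝ) + e))) :=
    integrable_one_add_norm (by simp; exact he)
  exact (h1.const_mul C).mono' hc.aestronglyMeasurable (Eventually.of_forall h)

lemma ft_continuous {f : E d → ℝ} (hf : Integrable f) : Continuous (ft f) :=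
  VectorFourier.fourierIntegral_continuous Real.continuous_fourierChar
    (by exact continuous_inner) hf.ofReal

/-- inversion -/
lemma inv {f : E d → ℝ} (hf : Continuous f) (h1 : Integrable f) (h2 : Integrable (ft f)) (x : E d) :
    (f x : ℂ) = 𝓕 (ft f) (-x) := by
  have h := h1.ofReal.fourierInv_fourier_eq h2
    (v := x) (Complex.continuous_ofReal.comp hf).continuousAt
  rw [← Real.fourierInv_eq_fourier_neg]
  exact h.symm

/-- compactly supported smooth functions -/
lemma dec_ft {B : E d → ℝ} (hB : ContDiff ℝ ∞ B) (hc : HasCompactSupport B) (k : ℕ) :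
    ∃ C : ℝ, ∀ y, ‖ft B y‖ * (1 + ‖y‖) ^ k ≤ C := by
  have h1 : HasCompactSupport (fun x => (B x : ℂ)) := hc.comp_left (g := fun t : ℝ => (t : ℂ)) rfl
  have h2 : ContDiff ℝ ∞ (fun x => (B x : ℂ)) := Complex.ofRealCLM.contDiff.comp hB
  set S := h1.toSchwartzMap h2
  refine ⟨2 ^ k * ((Finset.Iic ((k, 0) : ℕ × ℕ)).sup fun m => SchwartzMap.seminorm ℝ m.1 m.2)
    (𝓕 S), fun y => ?_⟩
  have h3 := SchwartzMap.one_add_le_sup_seminorm_apply (𝕜 := ℝ) (m := (k, 0)) (k := k) (n := 0)
    le_rfl le_rfl (𝓕 S) y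
  rw [norm_iteratedFDeriv_zero] at h3
  rw [mul_comm]
  exact h3

/-- the autocorrelation -/
noncomputable def au (B : E d → ℝ) : E d → ℝ :=
  B ⋆[ContinuousLinearMap.mul ℝ ℝ, volume] (fun x => B (-x))

lemma au_apply (B : E d → ℝ) (x : E d) : au B x = ∫ t, B t * B (t - x) := by
  unfold au
  rw [convolution_def]
  refine integral_congr_ae (Eventually.of_forall fun t => ?_)
  simp

lemma au_cont {B : E d → ℝ} (hB : Continuous B) (hc : HasCompactSupport B) :
    Continuous (au B) := by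
  have h1 : HasCompactSupport (fun x => B (-x)) := hc.comp_homeomorph (Homeomorph.neg (E d))
  exact h1.continuous_convolution_right _ (hB.integrable_of_hasCompactSupport hc).locallyIntegrable
    (hB.comp continuous_neg)

lemma au_supp {B : E d → ℝ} (hc : HasCompactSupport B) :
    HasCompactSupport (au B) := by
  have h1 : HasCompactSupport (fun x => B (-x)) := hc.comp_homeomorph (Homeomorph.neg (E d))
  exact hc.convolution _ h1

lemma au_ne {B : E d → ℝ} {x : E d} (h : au B x ≠ 0) : ∃ t, B t ≠ 0 ∧ B (t - x) ≠ 0 := by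
  by_contra hcon
  push Not at hcon
  apply h
  rw [au_apply]
  have : (fun t => B t * B (t - x)) = fun _ => 0 := by
    funext t
    by_cases h1 : B t = 0
    · rw [h1, zero_mul]
    · rw [hcon t h1, mul_zero]
  rw [this, integral_zero]

lemma au_even (B : E d → ℝ) (x : E d) : au B (-x) = au B x := by
  rw [au_apply, au_apply, ← integral_sub_right_eq_self (fun t => B t * B (t - -x)) x]
  refine integral_congr_ae (Eventually.of_forall fun t => ?_)
  simp only [sub_neg_eq_add, sub_add_cancel]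
  ring

lemma au_nonneg {B : E d → ℝ} (h : ∀ x, 0 ≤ B x) (x : E d) : 0 ≤ au B x := by
  rw [au_apply]
  exact integral_nonneg fun t => mul_nonneg (h _) (h _)

lemma au_le {B : E d → ℝ} (hB : Continuous B) (hc : HasCompactSupport B) (x : E d) :
    au B x ≤ ∫ t, B t ^ 2 := by
  have hi : Integrable (fun t => B t ^ 2) := by
    have h1 : HasCompactSupport (fun t => B t ^ 2) :=
      hc.comp_left (g := fun t : ℝ => t ^ 2) (by simp)
    exact (hB.pow 2).integrable_of_hasCompactSupport h1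
  have hi' : Integrable (fun t => B (t - x) ^ 2) := hi.comp_sub_right x
  rw [au_apply]
  calc ∫ t, B t * B (t - x) ≤ ∫ t, (1 / 2 * B t ^ 2 + 1 / 2 * B (t - x) ^ 2) := by
        refine integral_mono ?_ ((hi.const_mul _).add (hi'.const_mul _)) fun t => ?_
        · exact (hB.mul (hB.comp (continuous_sub_right x))).integrable_of_hasCompactSupport
            hc.mul_right
        · nlinarith [sq_nonneg (B t - B (t - x))]
    _ = ∫ t, B t ^ 2 := by
        rw [integral_add (hi.const_mul _) (hi'.const_mul _), integral_const_mul, integral_const_mul,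
          integral_sub_right_eq_self (fun t => B t ^ 2) x]
        ring

lemma au_zero (B : E d → ℝ) : au B 0 = ∫ t, B t ^ 2 := by
  rw [au_apply]
  refine integral_congr_ae (Eventually.of_forall fun t => ?_)
  simp only [sub_zero]
  ring

lemma ft_au {B : E d → ℝ} (hB : Continuous B) (hc : HasCompactSupport B) (y : E d) :
    ft (au B) y = ((‖ft B y‖ ^ 2 : ℝ) : ℂ) := by
  have h1 : HasCompactSupport (fun x => B (-x)) := hc.comp_homeomorph (Homeomorph.neg (E d))
  have hi : Integrable (fun x => (B x : ℂ)) := (hB.integrable_of_hasCompactSupport hc).ofReal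
  have hi' : Integrable (fun x => (B (-x) : ℂ)) :=
    ((hB.comp continuous_neg).integrable_of_hasCompactSupport h1).ofReal
  have h := Real.fourier_mul_convolution_eq hi hi' y
  have e : (fun x => ((au B x : ℝ) : ℂ)) = (fun x => (B x : ℂ)) ⋆[ContinuousLinearMap.mul ℂ ℂ,
      volume] (fun x => (B (-x) : ℂ)) := by
    funext x
    rw [au_apply, convolution_def, ← integral_complex_ofReal]
    refine integral_congr_ae (Eventually.of_forall fun t => ?_)
    simp
  have h2 : ft (au B) y = ft B y * ft (fun x => B (-x)) y := by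
    unfold ft
    rw [e]
    exact h
  rw [h2, ft_comp_neg, ← ft_conj, Complex.mul_conj, Complex.normSq_eq_norm_sq]

/-- the square of the modulus of the Fourier transform -/
noncomputable def sq (B : E d → ℝ) (y : E d) : ℝ := ‖ft B y‖ ^ 2

lemma dec_sq {B : E d → ℝ} (hB : ContDiff ℝ ∞ B) (hc : HasCompactSupport B) :
    Dec (fun y => (sq B y : ℂ)) := by
  obtain ⟨C, hC⟩ := dec_ft hB hc (d + 1)
  refine ⟨1, C ^ 2, one_pos, fun y => ?_⟩
  have h0 : 0 ≤ ‖ft B y‖ * (1 + ‖y‖) ^ (d + 1) := by positivity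
  have h1 := pow_le_pow_left₀ h0 (hC y) 2
  have h2 : 1 ≤ (1 + ‖y‖) ^ (d + 1) := one_le_pow₀ (by linarith [norm_nonneg y])
  have h3 : 0 < (1 + ‖y‖) ^ (d + 1) := by linarith
  rw [Complex.norm_real, Real.norm_of_nonneg (by unfold sq; positivity)]
  have h4 : (1 + ‖y‖) ^ (-((d : ℝ) + 1)) = ((1 + ‖y‖) ^ (d + 1))⁻¹ := by
    rw [Real.rpow_neg (by positivity), ← Real.rpow_natCast]
    push_cast
    rfl
  rw [h4, ← div_eq_mul_inv, le_div_iff₀ h3]
  unfold sq
  have h5 : ‖ft B y‖ ^ 2 * (1 + ‖y‖) ^ (d + 1) ≤ (‖ft B y‖ * (1 + ‖y‖) ^ (d + 1)) ^ 2 := by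
    rw [mul_pow]
    refine mul_le_mul_of_nonneg_left ?_ (by positivity)
    nlinarith
  exact h5.trans h1

lemma dec_cs {g : E d → ℝ} (hg : Continuous g) (hc : HasCompactSupport g) :
    Dec (fun y => (g y : ℂ)) := by
  have h1 : HasCompactSupport (fun y => g y * (1 + ‖y‖) ^ (d + 1)) := hc.mul_right
  have h2 : Continuous (fun y => g y * (1 + ‖y‖) ^ (d + 1)) :=
    hg.mul ((continuous_const.add continuous_norm).pow _)
  obtain ⟨C, hC⟩ := h1.exists_bound_of_continuous h2
  refine ⟨1, C, one_pos, fun y => ?_⟩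
  have h3 : 0 < (1 + ‖y‖) ^ (d + 1) := by positivity
  have h4 : (1 + ‖y‖) ^ (-((d : ℝ) + 1)) = ((1 + ‖y‖) ^ (d + 1))⁻¹ := by
    rw [Real.rpow_neg (by positivity), ← Real.rpow_natCast]
    push_cast
    rfl
  rw [h4, ← div_eq_mul_inv, le_div_iff₀ h3, Complex.norm_real]
  have := hC y
  rwa [norm_mul, Real.norm_of_nonneg h3.le] at this

lemma sq_cont {B : E d → ℝ} (hB : Continuous B) (hc : HasCompactSupport B) :
    Continuous (sq B) :=
  (ft_continuous (hB.integrable_of_hasCompactSupport hc)).norm.pow 2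

lemma ft_sq {B : E d → ℝ} (hB : ContDiff ℝ ∞ B) (hc : HasCompactSupport B) (x : E d) :
    ft (sq B) x = (au B x : ℂ) := by
  have hb := hB.continuous
  have e : ft (au B) = fun y => (sq B y : ℂ) := by
    funext y
    exact ft_au hb hc y
  have h1 : Integrable (ft (au B)) := by
    rw [e]
    exact (dec_sq hB hc).integrable (Complex.continuous_ofReal.comp (sq_cont hb hc))
  have h2 := inv (au_cont hb hc) ((au_cont hb hc).integrable_of_hasCompactSupport (au_supp hc))
    h1 (-x)
  rw [neg_neg, e, au_even] at h2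
  exact h2.symm

end Pool.Agent.J4.H46.LG
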